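import Mathlib
import Pool.Agent.Q196.PM.HexA
import Pool.Agent.Q196.PM.HexB

set_option autoImplicit false

/-! MP_41af23_an: the combinatorial structure of the cone of non-negative polygonal measures is
not determined by the oriented matroid. -/

namespace Pool.Agent.Results.MP_41af23_an.HexagonCounterexample

open MeasureTheory Set Pool.Agent.Q196.PM

/-- The standard measure `χ_Δ dx dy` of the triangle with vertices `a b c`, as a signed
measure. -/
noncomputable def triMeasure (a b c : ℂ) : SignedMeasure ℂ :=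
  (volume.restrict (convexHull ℝ {a, b, c})).toSignedMeasure

/-- The real linear span of the standard measures of all (nondegenerate) triangles with vertices
in `S`. -/
noncomputable def polygonalMeasures (S : Set ℂ) : Submodule ℝ (SignedMeasure ℂ) :=
  Submodule.span ℝ
    {μ | ∃ a ∈ S, ∃ b ∈ S, ∃ c ∈ S, ¬ Collinear ℝ {a, b, c} ∧ μ = triMeasure a b c}

/-- The cone of the non-negative measures in the span. -/
def Kpos (S : Set ℂ) : Set (SignedMeasure ℂ) := {μ | μ ∈ polygonalMeasures S ∧ 0 ≤ μ}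

/-- The nonempty faces of a convex set `K`: nonempty convex subsets `F` of `K` such that every
open segment in `K` which meets `F` has both end points in `F`. They are ordered by inclusion. -/
def Face {V : Type*} [AddCommGroup V] [Module ℝ V] (K : Set V) : Type _ :=
  {F : Set V // F.Nonempty ∧ Convex ℝ F ∧ IsExtreme ℝ K F}

instance {V : Type*} [AddCommGroup V] [Module ℝ V] (K : Set V) : PartialOrder (Face K) :=
  inferInstanceAs (PartialOrder {F : Set V // F.Nonempty ∧ Convex ℝ F ∧ IsExtreme ℝ K F})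

/-- The chirotope. -/
noncomputable def chi (a b c : ℂ) : SignType :=
  SignType.sign (Matrix.det !![1, 1, 1; a.re, b.re, c.re; a.im, b.im, c.im])

/-- The same oriented matroid. -/
def SameOrientedMatroid (S S' : Set ℂ) : Prop :=
  ∃ φ : S ≃ S', ∀ a b c : S, chi (φ a) (φ b) (φ c) = chi (a : ℂ) b c

theorem det_eq (a b c : ℂ) :
    Matrix.det !![1, 1, 1; a.re, b.re, c.re; a.im, b.im, c.im] = L a b c := by
  rw [Matrix.det_fin_three]
  simp [L]
  ring

/-- There are two sets of six points, no three on a line, with the same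
oriented matroid, whose cones of non-negative polygonal measures have non-isomorphic face
lattices. -/
theorem result : ∃ S S' : Set ℂ, S.Finite ∧ S'.Finite ∧ S.ncard = 6 ∧
    (∀ a ∈ S, ∀ b ∈ S, ∀ c ∈ S, a ≠ b → b ≠ c → c ≠ a → ¬ Collinear ℝ {a, b, c}) ∧
    (∀ a ∈ S', ∀ b ∈ S', ∀ c ∈ S', a ≠ b → b ≠ c → c ≠ a → ¬ Collinear ℝ {a, b, c}) ∧
    SameOrientedMatroid S S' ∧ IsEmpty (Face (Kpos S) ≃o Face (Kpos S')) := by
  have hvA : Function.Injective fun p => pt (PA p) := injective_of ptinjA
  have hvB : Function.Injective fun p => pt (PB p) := injective_of ptinjB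
  have hcolA : ∀ p q r : Fin 6, p ≠ q → q ≠ r → r ≠ p → LZ (PA p) (PA q) (PA r) ≠ 0 := by
    decide +kernel
  have hcolB : ∀ p q r : Fin 6, p ≠ q → q ≠ r → r ≠ p → LZ (PB p) (PB q) (PB r) ≠ 0 := by
    decide +kernel
  have hsame : ∀ p q r : Fin 6, SignType.sign (LZ (PB p) (PB q) (PB r)) =
      SignType.sign (LZ (PA p) (PA q) (PA r)) := by
    decide +kernel
  have hKA : Kpos (range fun p => pt (PA p)) = cone (polySpace (range fun p => pt (PA p)))
      (ev (fun p => pt (PA p)) (fun c => pt (UA c))) :=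
    posCone_eq hvA (off_of offA) (inj_of injA) coverA
  have hKB : Kpos (range fun p => pt (PB p)) = cone (polySpace (range fun p => pt (PB p)))
      (ev (fun p => pt (PB p)) (fun c => pt (UB c))) :=
    posCone_eq hvB (off_of offB) (inj_of injB) coverB
  refine ⟨range fun p => pt (PA p), range fun p => pt (PB p), finite_range _, finite_range _,
    ?_, ?_, ?_, ?_, ?_⟩
  · rw [← Set.image_univ, Set.ncard_image_of_injective _ hvA, Set.ncard_univ]
    simp
  · rintro _ ⟨p, rfl⟩ _ ⟨q, rfl⟩ _ ⟨r, rfl⟩ h1 h2 h3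
    refine not_collinear ?_
    simp only
    rw [L_pt]
    exact_mod_cast hcolA p q r (fun h => h1 (by rw [h])) (fun h => h2 (by rw [h]))
      (fun h => h3 (by rw [h]))
  · rintro _ ⟨p, rfl⟩ _ ⟨q, rfl⟩ _ ⟨r, rfl⟩ h1 h2 h3
    refine not_collinear ?_
    simp only
    rw [L_pt]
    exact_mod_cast hcolB p q r (fun h => h1 (by rw [h])) (fun h => h2 (by rw [h]))
      (fun h => h3 (by rw [h]))
  · refine ⟨(Equiv.ofInjective _ hvA).symm.trans (Equiv.ofInjective _ hvB), ?_⟩
    rintro ⟨_, p, rfl⟩ ⟨_, q, rfl⟩ ⟨_, r, rfl⟩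
    have h1 : ∀ p, ((Equiv.ofInjective _ hvA).symm.trans (Equiv.ofInjective _ hvB))
        ⟨pt (PA p), p, rfl⟩ = ⟨pt (PB p), p, rfl⟩ := by
      intro p
      rw [Equiv.trans_apply]
      have h2 : (Equiv.ofInjective _ hvA).symm ⟨pt (PA p), p, rfl⟩ = p := by
        rw [Equiv.symm_apply_eq]
        rfl
      rw [h2]
      rfl
    rw [h1, h1, h1]
    unfold chi
    rw [det_eq, det_eq, L_pt, L_pt]
    have h3 : ∀ m : ℤ, SignType.sign (m : ℝ) = SignType.sign m := by
      intro m
      rcases lt_trichotomy m 0 with h | h | h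
      · rw [sign_neg h, sign_neg (by exact_mod_cast h)]
      · rw [h]; simp
      · rw [sign_pos h, sign_pos (by exact_mod_cast h)]
    rw [h3, h3]
    exact hsame p q r
  · rw [hKA, hKB]
    set v : Fin 6 → ℂ := fun p => pt (PA p) with hv
    set u : Fin 25 → ℂ := fun c => pt (UA c) with hu
    have hL : ∀ t : Fin 10, L (v 0) (v (J1 t)) (v (J2 t)) ≠ 0 := by
      intro t
      have h1 := L_pt (PA 0) (PA (J1 t)) (PA (J2 t))
      show L (pt (PA 0)) (pt (PA (J1 t))) (pt (PA (J2 t))) ≠ 0
      rw [h1]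
      exact_mod_cast (triPos t).ne'
    have hLu : ∀ p q c, L (v p) (v q) (u c) = (LZ (PA p) (PA q) (UA c) : ℝ) :=
      fun p q c => L_pt _ _ _
    have hev : ∀ (t : Fin 10) (c : Fin 25), ev v u c (tri (v 0) (v (J1 t)) (v (J2 t))) =
        volume.real (B v u c) * (Rm c t : ℝ) := by
      intro t c
      rw [ev_tri (off_of offA) c (hL t)]
      obtain ⟨n1, n2, n3⟩ := ne_of_L (hL t)
      have hoff := off_of (P := PA) (U := UA) offA c
      have h1 : u c ∈ convexHull ℝ {v 0, v (J1 t), v (J2 t)} ↔ _ :=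
        mem_hull_iff (hL t) (hoff _ _ n1) (hoff _ _ n2) (hoff _ _ n3)
      have h0 := triPos t
      have h2 : u c ∈ convexHull ℝ {v 0, v (J1 t), v (J2 t)} ↔
          (0 < LZ (PA 0) (PA (J1 t)) (UA c) ∧ 0 < LZ (PA (J1 t)) (PA (J2 t)) (UA c) ∧
            0 < LZ (PA (J2 t)) (PA 0) (UA c)) := by
        refine h1.trans ?_
        have e : L (v 0) (v (J1 t)) (u c) + L (v (J1 t)) (v (J2 t)) (u c) +
          L (v (J2 t)) (v 0) (u c) = L (v 0) (v (J1 t)) (v (J2 t)) := L_sum _ _ _ _
        have e0 : 0 < L (v 0) (v (J1 t)) (v (J2 t)) := by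
          have h5 : L (v 0) (v (J1 t)) (v (J2 t)) = (LZ (PA 0) (PA (J1 t)) (PA (J2 t)) : ℝ) :=
            L_pt _ _ _
          rw [h5]
          exact_mod_cast h0
        constructor
        · rintro (h | ⟨a1, a2, a3⟩)
          · change 0 < L (v 0) (v (J1 t)) (u c) ∧ 0 < L (v (J1 t)) (v (J2 t)) (u c) ∧
              0 < L (v (J2 t)) (v 0) (u c) at h
            rw [hLu, hLu, hLu] at h
            exact_mod_cast h
          · have b1 := L_swap (v 0) (v (J1 t)) (u c)
            have b2 := L_swap (v (J1 t)) (v (J2 t)) (u c)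
            have b3 := L_swap (v (J2 t)) (v 0) (u c)
            change 0 < L (v (J1 t)) (v 0) (u c) at a1
            change 0 < L (v (J2 t)) (v (J1 t)) (u c) at a2
            change 0 < L (v 0) (v (J2 t)) (u c) at a3
            linarith
        · intro h
          left
          show 0 < L (v 0) (v (J1 t)) (u c) ∧ 0 < L (v (J1 t)) (v (J2 t)) (u c) ∧
              0 < L (v (J2 t)) (v 0) (u c)
          rw [hLu, hLu, hLu]
          exact_mod_cast h
      by_cases h3 : u c ∈ convexHull ℝ {v 0, v (J1 t), v (J2 t)}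
      · rw [if_pos h3, Rm, if_pos (h2.1 h3)]
        simp
        rfl
      · rw [if_neg h3, Rm, if_neg fun h => h3 (h2.2 h)]
        simp
    let x : Fin 25 → SignedMeasure ℂ := fun c =>
      ∑ t : Fin 10, (W c t : ℝ) • tri (v 0) (v (J1 t)) (v (J2 t))
    have hx : ∀ c c', ev v u c' (x c) = volume.real (B v u c') * (Dn c c' : ℝ) := by
      intro c c'
      simp only [x, map_sum, map_smul, hev, smul_eq_mul, Dn]
      push_cast
      rw [Finset.mul_sum]
      refine Finset.sum_congr rfl fun t _ => ?_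
      ring
    have hxM : ∀ c, x c ∈ polySpace (range v) := by
      intro c
      refine Submodule.sum_mem _ fun t _ => Submodule.smul_mem _ _ (Submodule.subset_span ?_)
      exact ⟨_, ⟨0, rfl⟩, _, ⟨J1 t, rfl⟩, _, ⟨J2 t, rfl⟩, not_collinear (hL t), rfl⟩
    have hDn0 : ∀ c c', 0 ≤ Dn c c' := by
      intro c c'
      by_cases h : c' = c
      · rw [h, Dn_self]
      · exact (Dn_pos c c' h).le
    refine no_iso _ _ _ _ (by simp) (by simp) x (fun c => ⟨hxM c, fun c' => ?_⟩) (fun c => ?_)
      fun c c' hcc => ?_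
    · rw [hx]
      exact mul_nonneg (B_pos v u c').le (by exact_mod_cast hDn0 c c')
    · rw [hx, Dn_self]
      simp
    · rw [hx]
      exact mul_pos (B_pos v u c') (by exact_mod_cast Dn_pos c c' hcc)

end Pool.Agent.Results.MP_41af23_an.HexagonCounterexample
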